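import Pool.Agent.FS.FewPairsEf.Main

/-! An additive poset with four independent pairs of nonzero elements and no rank. -/

namespace Pool.Agent.FS.FewPairsEf

/-- the underlying group of the example -/
abbrev V : Type := ZMod 2 × ZMod 2 × ZMod 2 × ZMod 2

/-- the strict part of the order among nonzero vectors: pairs (atom, top) -/
def covers : List (V × V) :=
  [((0,0,0,1),(0,0,1,0)), ((0,0,1,1),(0,0,1,0)),
   ((0,1,0,1),(1,0,1,0)), ((1,1,1,1),(1,0,1,0)),
   ((1,0,0,1),(1,1,1,0)), ((0,1,1,1),(1,1,1,0)),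
   ((1,0,1,1),(0,1,1,0)), ((1,1,0,1),(0,1,1,0))]

/-- the order relation of the example -/
def below (a b : V) : Prop := a = 0 ∨ a = b ∨ (a, b) ∈ covers

instance (a b : V) : Decidable (below a b) := by unfold below; infer_instance

theorem below_refl : ∀ a : V, below a a := by decide +kernel
theorem below_trans : ∀ a b c : V, below a b → below b c → below a c := by decide +kernel
theorem below_antisymm : ∀ a b : V, below a b → below b a → a = b := by decide +kernel
theorem below_add : ∀ a b c : V, below b a → below c a → below (b + c) a := by decide +kernel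
theorem below_add_add : ∀ a b c : V, below a b → below a c → below a (a + b + c) := by
  decide +kernel

/-- the order structure of the example -/
@[reducible] def ord : PartialOrder V where
  le := below
  lt a b := below a b ∧ ¬ below b a
  le_refl := below_refl
  le_trans := below_trans
  le_antisymm := below_antisymm
  lt_iff_le_not_ge _ _ := Iff.rfl

theorem three (r : V → ℕ) (h0 : r 0 = 0) (a b c : V) (hab : a ≠ b) (hac : a ≠ c) (hbc : b ≠ c) :
    ∑ J ∈ ({a, b, c} : Finset V).powerset.filter Finset.Nonempty,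
        (-1 : ℤ) ^ (J.card + 1) * (r (∑ x ∈ J, x) : ℤ)
      = r a + r b + r c - r (a + b) - r (a + c) - r (b + c) + r (a + b + c) := by
  have h1 : ∑ J ∈ ({a, b, c} : Finset V).powerset.filter Finset.Nonempty,
        (-1 : ℤ) ^ (J.card + 1) * (r (∑ x ∈ J, x) : ℤ)
      = ∑ J ∈ ({a, b, c} : Finset V).powerset,
        (-1 : ℤ) ^ (J.card + 1) * (r (∑ x ∈ J, x) : ℤ) := by
    apply Finset.sum_filter_of_ne
    intro J _ hJ
    by_contra hne
    rw [Finset.not_nonempty_iff_eq_empty] at hne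
    apply hJ
    simp [hne, h0]
  have ha : a ∉ ({b, c} : Finset V) := by simp [hab, hac]
  have hb : b ∉ ({c} : Finset V) := by simp [hbc]
  have hc : ({c} : Finset V).powerset = {∅, {c}} := by
    ext s
    simp [Finset.subset_singleton_iff]
  have hne : (∅ : Finset V) ≠ {c} := (Finset.singleton_ne_empty c).symm
  rw [h1, Finset.sum_powerset_insert ha, Finset.sum_powerset_insert hb,
    Finset.sum_powerset_insert hb, hc]
  simp only [Finset.sum_pair hne]
  simp [h0, hab, hac, hbc, add_assoc]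
  ring

theorem pairs_card :
    (Finset.univ.filter fun p : V × V => p.1 ≠ 0 ∧ p.2 ≠ 0 ∧ below p.1 (p.1 + p.2)).card = 8 := by
  decide +kernel

theorem exists_example :
    ∃ (A : Type) (_ : AddCommGroup A) (_ : PartialOrder A), Finite A ∧
      (∀ a b c : A, b ≤ a → c ≤ a → b + c ≤ a) ∧
      (∀ a b c : A, a ≤ b → a ≤ c → a ≤ a + b + c) ∧
      {p : A × A | p.1 ≠ 0 ∧ p.2 ≠ 0 ∧ p.1 ≤ p.1 + p.2}.ncard = 8 ∧
      ¬ ∃ r : A → ℕ,
        (∀ a : A, r a = 0 ↔ a = 0) ∧
        (∀ a b : A, a ≤ a + b → r (a + b) = r a + r b) ∧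
        (∀ K : Finset A, K.Nonempty →
          0 ≤ ∑ J ∈ K.powerset.filter Finset.Nonempty,
              (-1 : ℤ) ^ (J.card + 1) * (r (∑ a ∈ J, a) : ℤ) ∧
          (2 : ℤ) ^ (K.card - 1) ∣ ∑ J ∈ K.powerset.filter Finset.Nonempty,
              (-1 : ℤ) ^ (J.card + 1) * (r (∑ a ∈ J, a) : ℤ)) := by
  refine ⟨V, inferInstance, ord, inferInstance, below_add, below_add_add, ?_, ?_⟩
  · rw [← pairs_card, ← Set.ncard_coe_finset, Finset.coe_filter_univ]
    rfl
  rintro ⟨r, h1, h2, h3⟩
  have h0 : r 0 = 0 := (h1 0).2 rfl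
  have hpos : r (1,0,0,0) ≠ 0 := fun h => absurd ((h1 _).1 h) (by decide)
  have e2 := h2 (0,0,0,1) (0,0,1,1) (show below _ _ by decide)
  have e3 := h2 (0,1,0,1) (1,1,1,1) (show below _ _ by decide)
  have e4 := h2 (1,0,0,1) (0,1,1,1) (show below _ _ by decide)
  have e5 := h2 (1,0,1,1) (1,1,0,1) (show below _ _ by decide)
  have k1 := (h3 {(0,0,0,1),(0,0,1,1),(1,0,0,1)} (by simp)).1
  have k2 := (h3 {(0,0,0,1),(0,1,1,1),(1,0,0,1)} (by simp)).1
  have k3 := (h3 {(0,0,1,1),(0,1,0,1),(1,0,1,1)} (by simp)).1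
  have k4 := (h3 {(0,1,0,1),(0,1,1,1),(1,1,0,1)} (by simp)).1
  rw [three r h0 _ _ _ (by decide) (by decide) (by decide)] at k1 k2 k3 k4
  have two : (1 : ZMod 2) + 1 = 0 := by decide
  simp only [Prod.mk_add_mk, two, add_zero, zero_add] at e2 e3 e4 e5 k1 k2 k3 k4
  omega

end Pool.Agent.FS.FewPairsEf
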