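import Mathlib

/-! Finite additive posets with few independent pairs have a rank. -/

namespace Pool.Agent.FS.FewPairsEf

open Finset

lemma exists_sign {B ι : Type} [AddCommGroup B] [Finite B] (h2 : ∀ b : B, b + b = 0) (a : B)
    (ha : a ≠ 0) (P : Finset ι) (x y : ι → B) (hP : P.card ≤ 7)
    (hs : ∀ i ∈ P, ∃ j ∈ P, j ≠ i ∧ x j = y i ∧ y j = x i)
    (H : ∀ i ∈ P, a + x i ≠ 0 ∧ a + y i ≠ 0 ∧ x i + y i ≠ 0) :
    ∃ ε : B → ℤ, (∀ u, ε u = 1 ∨ ε u = -1) ∧ (∀ u v, ε (u + v) = ε u * ε v) ∧ ε a = -1 ∧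
      ∀ i ∈ P, ε (x i) = 1 ∨ ε (y i) = 1 := by
  classical
  have := Fintype.ofFinite B
  let E : AddChar B ℂ → B → ℤ := fun ψ u => if ψ u = 1 then 1 else -1
  have E1 : ∀ ψ u, E ψ u = 1 ∨ E ψ u = -1 := fun ψ u => by
    simp only [E]
    split_ifs <;> simp
  have E2 : ∀ ψ u, ((E ψ u : ℤ) : ℂ) = ψ u := fun ψ u => by
    have h : ψ u * ψ u = 1 := by rw [← AddChar.map_add_eq_mul, h2, AddChar.map_zero_eq_one]
    simp only [E]
    split_ifs with h1
    · simp [h1]
    · simp [(mul_self_eq_one_iff.1 h).resolve_left h1]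
  have E3 : ∀ ψ u v, E ψ (u + v) = E ψ u * E ψ v := fun ψ u v => by
    have : ((E ψ (u + v) : ℤ) : ℂ) = ((E ψ u * E ψ v : ℤ) : ℂ) := by
      rw [Int.cast_mul, E2, E2, E2, AddChar.map_add_eq_mul]
    exact_mod_cast this
  have E4 : ∀ u, ∑ ψ, E ψ u = if u = 0 then (Fintype.card B : ℤ) else 0 := fun u => by
    have h := AddChar.sum_apply_eq_ite (α := B) u
    simp only [← E2] at h
    have h' : ((∑ ψ, E ψ u : ℤ) : ℂ) = ((if u = 0 then (Fintype.card B : ℤ) else 0 : ℤ) : ℂ) := by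
      push_cast
      exact h
    exact_mod_cast h'
  have E5 : ∀ u, 0 ≤ ∑ ψ, E ψ u := fun u => by
    rw [E4]
    split_ifs <;> simp
  have E6 : ∀ u, u ≠ 0 → ∑ ψ, E ψ u = 0 := fun u hu => by rw [E4, if_neg hu]
  have N0 : (0 : ℤ) < Fintype.card (AddChar B ℂ) := by exact_mod_cast Fintype.card_pos
  by_contra hn
  have key : ∀ ψ, 8 * (1 - E ψ a) ≤
      ∑ i ∈ P, (1 - E ψ a) * ((1 - E ψ (x i)) * (1 - E ψ (y i))) := by
    intro ψ
    have nn : ∀ i ∈ P, 0 ≤ (1 - E ψ a) * ((1 - E ψ (x i)) * (1 - E ψ (y i))) := fun i _ => by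
      rcases E1 ψ a with h | h <;> rcases E1 ψ (x i) with h' | h' <;>
        rcases E1 ψ (y i) with h'' | h'' <;> rw [h, h', h''] <;> norm_num
    rcases E1 ψ a with h | h
    · refine le_trans (by rw [h]; norm_num) (Finset.sum_nonneg nn)
    · have : ∃ i ∈ P, E ψ (x i) = -1 ∧ E ψ (y i) = -1 := by
        by_contra hc
        refine hn ⟨E ψ, E1 ψ, E3 ψ, h, fun i hi => ?_⟩
        rcases E1 ψ (x i) with h' | h'
        · exact Or.inl h'
        · rcases E1 ψ (y i) with h'' | h''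
          · exact Or.inr h''
          · exact absurd ⟨i, hi, h', h''⟩ hc
      obtain ⟨i, hi, hx, hy⟩ := this
      obtain ⟨j, hj, hji, e1, e2⟩ := hs i hi
      have sub : ({j, i} : Finset ι) ⊆ P := by
        intro t ht
        simp only [mem_insert, mem_singleton] at ht
        rcases ht with rfl | rfl <;> assumption
      refine le_trans ?_ (Finset.sum_le_sum_of_subset_of_nonneg sub fun t ht _ => nn t ht)
      rw [Finset.sum_pair hji, e1, e2, h, hx, hy]
      norm_num
  have s1 := Finset.sum_le_sum (s := univ) fun ψ _ => key ψ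
  rw [Finset.sum_comm, ← Finset.mul_sum, Finset.sum_sub_distrib, E6 a ha] at s1
  have s2 : ∀ i ∈ P, ∑ ψ, (1 - E ψ a) * ((1 - E ψ (x i)) * (1 - E ψ (y i))) ≤
      (Fintype.card (AddChar B ℂ) : ℤ) := by
    intro i hi
    obtain ⟨k1, k2, k3⟩ := H i hi
    have e : ∀ ψ, (1 - E ψ a) * ((1 - E ψ (x i)) * (1 - E ψ (y i))) =
        1 - E ψ a - E ψ (x i) - E ψ (y i) + E ψ (a + x i) + E ψ (a + y i) + E ψ (x i + y i) -
          E ψ (a + (x i + y i)) := fun ψ => by
      simp only [E3]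
      ring
    simp only [e, Finset.sum_add_distrib, Finset.sum_sub_distrib]
    rw [E6 _ k1, E6 _ k2, E6 _ k3]
    have := E5 a
    have := E5 (x i)
    have := E5 (y i)
    have := E5 (a + (x i + y i))
    simp only [Finset.sum_const, Finset.card_univ, nsmul_eq_mul, mul_one]
    omega
  have s3 := s1.trans (Finset.sum_le_sum s2)
  simp only [Finset.sum_const, Finset.card_univ, nsmul_eq_mul, mul_one] at s3
  have : (P.card : ℤ) ≤ 7 := by exact_mod_cast hP
  nlinarith

lemma alt_sum {A : Type} [AddCommGroup A] (ε : A → ℤ) (e1 : ∀ u, ε u = 1 ∨ ε u = -1)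
    (e2 : ∀ u v, ε (u + v) = ε u * ε v) (K : Finset A) (hK : K.Nonempty) :
    ∃ c : ℕ, ∑ J ∈ K.powerset.filter Finset.Nonempty,
      (-1 : ℤ) ^ (J.card + 1) * ((if ε (∑ a ∈ J, a) = 1 then 0 else 1 : ℕ) : ℤ) =
        2 ^ (K.card - 1) * c := by
  classical
  have e0 : ε 0 = 1 := by
    have h := e2 0 0
    rw [add_zero] at h
    rcases e1 0 with k | k
    · exact k
    · rw [k] at h
      norm_num at h
  have e3 : ∀ J : Finset A, ε (∑ a ∈ J, a) = ∏ a ∈ J, ε a := fun J => by
    induction J using Finset.induction_on with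
    | empty => simpa using e0
    | insert b J hb ih => rw [Finset.sum_insert hb, Finset.prod_insert hb, e2, ih]
  have e4 : ∀ u, 2 * ((if ε u = 1 then 0 else 1 : ℕ) : ℤ) = 1 - ε u := fun u => by
    rcases e1 u with k | k <;> rw [k] <;> norm_num
  rw [Finset.sum_filter_of_ne fun J _ hJ => by
    by_contra hne
    rw [Finset.not_nonempty_iff_eq_empty] at hne
    apply hJ
    simp [hne, e0]]
  refine ⟨∏ a ∈ K, if ε a = 1 then 0 else 1, mul_left_cancel₀ (two_ne_zero (α := ℤ)) ?_⟩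
  obtain ⟨n, hn⟩ : ∃ n, K.card = n + 1 := ⟨K.card - 1, by have := hK.card_pos; omega⟩
  have h1 : ∏ a ∈ K, (1 + -ε a) = ∑ J ∈ K.powerset, ∏ a ∈ J, -ε a := Finset.prod_one_add K
  have h2 : ∑ J ∈ K.powerset, (-1 : ℤ) ^ J.card = 0 :=
    Finset.sum_powerset_neg_one_pow_card_of_nonempty hK
  have h3 : ∏ a ∈ K, (1 + -ε a) =
      2 ^ K.card * ((∏ a ∈ K, if ε a = 1 then 0 else 1 : ℕ) : ℤ) := by
    rw [Nat.cast_prod, ← Finset.prod_const, ← Finset.prod_mul_distrib]
    exact Finset.prod_congr rfl fun a _ => by rw [e4]; ring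
  rw [Finset.mul_sum, Finset.sum_congr rfl (g := fun J => ∏ a ∈ J, -ε a - (-1) ^ J.card)
    fun J _ => by
      rw [mul_left_comm, e4, e3, Finset.prod_neg]
      ring, Finset.sum_sub_distrib, h2, ← h1, h3, hn, Nat.add_sub_cancel]
  ring

theorem exists_rank {A : Type} [AddCommGroup A] [PartialOrder A] [Finite A]
    (h1 : ∀ a b c : A, b ≤ a → c ≤ a → b + c ≤ a)
    (h2 : ∀ a b c : A, a ≤ b → a ≤ c → a ≤ a + b + c)
    (H : ∀ a : A, a ≠ 0 →
      {p : A × A | p.1 ≤ p.1 + p.2 ∧ ¬ a ≤ a + p.1 ∧ ¬ a ≤ a + p.2}.ncard ≤ 7) :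
    ∃ r : A → ℕ,
      (∀ a : A, r a = 0 ↔ a = 0) ∧
      (∀ a b : A, a ≤ a + b → r (a + b) = r a + r b) ∧
      (∀ K : Finset A, K.Nonempty →
        0 ≤ ∑ J ∈ K.powerset.filter Finset.Nonempty,
            (-1 : ℤ) ^ (J.card + 1) * (r (∑ a ∈ J, a) : ℤ) ∧
        (2 : ℤ) ^ (K.card - 1) ∣ ∑ J ∈ K.powerset.filter Finset.Nonempty,
            (-1 : ℤ) ^ (J.card + 1) * (r (∑ a ∈ J, a) : ℤ)) := by
  classical
  have := Fintype.ofFinite A
  have two : ∀ a : A, a + a = 0 := fun a => by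
    have k1 := h2 a a a le_rfl le_rfl
    have k2 := h1 a _ a (h1 a a a le_rfl le_rfl) le_rfl
    have k3 := le_antisymm k2 k1
    simpa using k3
  have zle : ∀ a : A, 0 ≤ a := fun a => two a ▸ h1 a a a le_rfl le_rfl
  have can : ∀ a b : A, a + (a + b) = b := fun a b => by rw [← add_assoc, two, zero_add]
  have sym : ∀ a b : A, a ≤ a + b → b ≤ b + a := fun a b h => by
    have := h1 _ _ _ h le_rfl
    rwa [can, add_comm] at this
  have down : ∀ x z a : A, x ≤ z → z ≤ z + a → x ≤ x + a := fun x z a h h' => by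
    have := h2 x z (z + a) h (h.trans h')
    rwa [add_assoc, can] at this
  have main : ∀ a : A, ∃ ε : A → ℤ, (∀ u, ε u = 1 ∨ ε u = -1) ∧
      (∀ u v, ε (u + v) = ε u * ε v) ∧ (a ≠ 0 → ε a = -1) ∧
      ∀ x y, x ≤ x + y → ε x = 1 ∨ ε y = 1 := by
    intro a
    by_cases ha : a = 0
    · exact ⟨fun _ => 1, fun _ => Or.inl rfl, fun _ _ => by simp, fun h => absurd ha h,
        fun _ _ _ => Or.inl rfl⟩
    let U : AddSubgroup A :=
      { carrier := {u | a ≤ a + u}
        zero_mem' := by simp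
        add_mem' := fun {u v} hu hv => by
          have := h2 a _ _ hu hv
          rwa [can, add_left_comm, ← add_assoc, add_assoc] at this
        neg_mem' := fun {u} hu => by
          rwa [neg_eq_of_add_eq_zero_left (two u)] }
    have mU : ∀ u, (QuotientAddGroup.mk u : A ⧸ U) = 0 ↔ a ≤ a + u := fun u =>
      QuotientAddGroup.eq_zero_iff u
    have aU : ¬ a ≤ a + a := fun h => ha (le_antisymm (two a ▸ h) (zle a))
    obtain ⟨ε, e1, e2, e3, e4⟩ := exists_sign (B := A ⧸ U)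
      (fun b => by
        obtain ⟨u, rfl⟩ := QuotientAddGroup.mk_surjective b
        rw [← QuotientAddGroup.mk_add, two, QuotientAddGroup.mk_zero])
      (QuotientAddGroup.mk a) (fun h => aU ((mU a).1 h))
      (univ.filter fun p : A × A => p.1 ≤ p.1 + p.2 ∧ ¬ a ≤ a + p.1 ∧ ¬ a ≤ a + p.2)
      (fun p => QuotientAddGroup.mk p.1) (fun p => QuotientAddGroup.mk p.2)
      (by
        have := H a ha
        rwa [← Set.ncard_coe_finset, Finset.coe_filter_univ])
      (by
        rintro ⟨x, y⟩ hp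
        simp only [mem_filter, mem_univ, true_and] at hp
        refine ⟨(y, x), ?_, fun h => ?_, rfl, rfl⟩
        · simp only [mem_filter, mem_univ, true_and]
          exact ⟨sym _ _ hp.1, hp.2.2, hp.2.1⟩
        · have e : y = x := congrArg Prod.fst h
          have k := hp.1
          rw [e, two] at k
          refine hp.2.1 ?_
          rw [le_antisymm k (zle x), add_zero])
      (by
        rintro ⟨x, y⟩ hp
        simp only [mem_filter, mem_univ, true_and] at hp
        simp only [← QuotientAddGroup.mk_add, ne_eq, mU, can]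
        exact ⟨fun h => hp.2.2 (down _ _ _ h hp.1), fun h => hp.2.1 (down _ _ _ h (sym _ _ hp.1)),
          fun h => hp.2.1 (sym _ _ (down _ _ _ hp.1 (sym _ _ h)))⟩)
    have e0 : ε 0 = 1 := by
      have h := e2 0 0
      rw [add_zero] at h
      rcases e1 0 with k | k
      · exact k
      · rw [k] at h
        norm_num at h
    refine ⟨fun u => ε (QuotientAddGroup.mk u), fun u => e1 _, fun u v => ?_, fun _ => e3,
      fun x y hxy => ?_⟩
    · simp only [QuotientAddGroup.mk_add, e2]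
    · by_cases k1 : a ≤ a + x
      · left
        simp only [(mU x).2 k1, e0]
      · by_cases k2 : a ≤ a + y
        · right
          simp only [(mU y).2 k2, e0]
        · exact e4 (x, y) (by simp only [mem_filter, mem_univ, true_and]; exact ⟨hxy, k1, k2⟩)
  choose ε e1 e2 e3 e4 using main
  refine ⟨fun u => ∑ a, if ε a u = 1 then 0 else 1, fun u => ⟨fun h => ?_, fun h => ?_⟩,
    fun x y hxy => ?_, fun K hK => ?_⟩
  · by_contra hu
    have := (Finset.sum_eq_zero_iff.1 h) u (mem_univ _)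
    rw [e3 u hu] at this
    norm_num at this
  · refine Finset.sum_eq_zero fun a _ => if_pos ?_
    have k := e2 a 0 0
    rw [add_zero] at k
    rw [h]
    rcases e1 a 0 with k' | k'
    · exact k'
    · rw [k'] at k
      norm_num at k
  · rw [← Finset.sum_add_distrib]
    refine Finset.sum_congr rfl fun a _ => ?_
    rw [e2]
    rcases e4 a x y hxy with k | k <;> rw [k] <;> simp
  · choose c hc using fun a => alt_sum (ε a) (e1 a) (e2 a) K hK
    have : ∑ J ∈ K.powerset.filter Finset.Nonempty, (-1 : ℤ) ^ (J.card + 1) *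
        ((∑ a, if ε a (∑ b ∈ J, b) = 1 then 0 else 1 : ℕ) : ℤ) =
          2 ^ (K.card - 1) * ∑ a, (c a : ℤ) := by
      simp only [Nat.cast_sum, Finset.mul_sum]
      rw [Finset.sum_comm]
      exact Finset.sum_congr rfl fun a _ => hc a
    rw [this]
    exact ⟨by positivity, Dvd.intro _ rfl⟩

end Pool.Agent.FS.FewPairsEf
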